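import Pool.Agent.DPC.Card
import Pool.Agent.DPC.Fine
import Pool.Agent.DPC.Non4
import Pool.Agent.DPC.Tur

set_option autoImplicit false

/-!
# MP_02df5b_lc, Q1: index sets for differences of two `Π⁰₁` classes

All notions are defined in `Pool.Agent.DPC.Defs`.
-/

namespace Pool.Agent.Results.MP_02df5b_lc.Classification

open Pool.Agent.DPC
open Nat.Partrec (Code)
open Encodable Cardinal MeasureTheory

theorem result :
    -- the programs `ev c` enumerate the primitive recursive functions, effectively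
    ((∀ f : ℕ → ℕ, Nat.Primrec f ↔ ∃ c : Code, ev c = f) ∧ Computable₂ ev) ∧
    -- finite cardinalities
    (∀ n : ℕ,
      Complete (SigmaN 2) (D fun X => (n : Cardinal) < #X) ∧
      Complete (PiN 2) (D fun X => #X ≤ (n : Cardinal))) ∧
    (∀ n : ℕ, 1 ≤ n →
      Complete (SigmaN 2) (D fun X => (n : Cardinal) ≤ #X) ∧
      Complete (PiN 2) (D fun X => #X < (n : Cardinal)) ∧
      Complete (DiffN 2) (D fun X => #X = (n : Cardinal))) ∧
    Complete (PiN 2) (D fun X => #X = ((0 : ℕ) : Cardinal)) ∧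
    -- finite, infinite, countably infinite
    (Complete (SigmaN 3) (D fun X => #X < ℵ₀) ∧
      Complete (PiN 3) (D fun X => ℵ₀ ≤ #X) ∧
      Complete Pi11 (D fun X => #X = ℵ₀)) ∧
    -- infinite cardinals up to the continuum
    (∀ κ : Cardinal.{0}, ℵ₀ ≤ κ → κ < 𝔠 →
      Complete Pi11 (D fun X => #X ≤ κ) ∧ Complete Sigma11 (D fun X => κ < #X)) ∧
    (∀ κ : Cardinal.{0}, ℵ₀ < κ → κ ≤ 𝔠 →
      Complete Pi11 (D fun X => #X < κ) ∧ Complete Sigma11 (D fun X => κ ≤ #X)) ∧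
    (∀ κ : Cardinal.{0}, ℵ₀ < κ → κ < 𝔠 → (D fun X => #X = κ) = ∅) ∧
    Complete Sigma11 (D fun X => #X = 𝔠) ∧
    -- measure, d.c.e. thresholds
    (∀ r : ℝ, DCE r →
      (0 ≤ r → r < 1 →
        Complete (SigmaN 2) (D fun X => r < mu.real X) ∧
        Complete (PiN 2) (D fun X => mu.real X ≤ r)) ∧
      (0 < r → r ≤ 1 →
        Complete (SigmaN 2) (D fun X => mu.real X < r) ∧
        Complete (PiN 2) (D fun X => r ≤ mu.real X)) ∧
      (0 ≤ r → r ≤ 1 → Complete (PiN 2) (D fun X => mu.real X = r))) ∧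
    -- computable, `Σ⁰₁` and `Π⁰₁` reals are d.c.e.
    (∀ A : Set ℕ, SigmaN 0 A ∨ SigmaN 1 A ∨ PiN 1 A → DCE (digitReal A)) ∧
    -- measure, all other thresholds
    (∀ r : ℝ, ¬ DCE r → 0 ≤ r → r ≤ 1 →
      (D fun X => mu.real X = r) = ∅ ∧
      (D fun X => r ≤ mu.real X) = (D fun X => r < mu.real X) ∧
      (D fun X => mu.real X ≤ r) = (D fun X => mu.real X < r) ∧
      (D fun X => mu.real X < r) = (D fun X => r < mu.real X)ᶜ ∧
      -- no completeness
      (∀ Γ : Set ℕ → Prop,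
        ((∀ A, SigmaN 2 A → Γ A) ∨ (∀ A, PiN 2 A → Γ A) ∨ (∀ A, Γ A → ∃ k, NCE k A)) →
        ¬ Complete Γ (D fun X => r < mu.real X) ∧ ¬ Complete Γ (D fun X => mu.real X < r)) ∧
      -- the many-one degrees
      (∀ A : Set ℕ, ((· ∈ A) ≤₀ (· ∈ D fun X => r < mu.real X)) ↔
        ∃ v w : ℕ → ℝ, Lower v ∧ Lower w ∧ (∀ n, 0 ≤ v n ∧ v n ≤ 1) ∧ (∀ n, 0 ≤ w n ∧ w n ≤ 1) ∧
          ∀ n, n ∈ A ↔ r < v n - w n) ∧
      (∀ A : Set ℕ, ((· ∈ A) ≤₀ (· ∈ D fun X => mu.real X < r)) ↔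
        ∃ v w : ℕ → ℝ, Lower v ∧ Lower w ∧ (∀ n, 0 ≤ v n ∧ v n ≤ 1) ∧ (∀ n, 0 ≤ w n ∧ w n ≤ 1) ∧
          ∀ n, n ∈ A ↔ v n - w n < r) ∧
      -- the Turing degree
      Nat.RecursiveIn {chi (cut r), chi halt} (chi (D fun X => r < mu.real X)) ∧
      Nat.RecursiveIn {chi (D fun X => r < mu.real X)} (chi (cut r)) ∧
      Nat.RecursiveIn {chi (D fun X => r < mu.real X)} (chi halt)) := by
  refine ⟨⟨ev_range, ev_computable⟩, fun n => ⟨complete_gt n, complete_le n⟩,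
    fun n hn => ⟨complete_ge hn, complete_lt hn, complete_eq hn⟩, complete_zero,
    ⟨complete_finite, complete_infinite, complete_aleph0⟩,
    fun κ h1 h2 => ⟨complete_le_kappa h1 h2, complete_gt_kappa h1 h2⟩,
    fun κ h1 h2 => ⟨complete_lt_kappa h1 h2, complete_ge_kappa h1 h2⟩,
    fun κ h1 h2 => eq_kappa_empty h1 h2, complete_continuum,
    fun r hr => ⟨fun h0 h1 => ⟨complete_mu_gt hr h0 h1, complete_mu_le hr h0 h1⟩,
      fun h0 h1 => ⟨complete_mu_lt hr h0 h1, complete_mu_ge hr h0 h1⟩,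
      fun h0 h1 => complete_mu_eq hr h0 h1⟩,
    fun A hA => dce_digitReal hA, fun r hr h0 h1 => ?_⟩
  have hne := ne_of_not_dce hr
  have hpos : 0 < r := by
    refine lt_of_le_of_ne h0 fun h => ?_
    exact leftCE_rat_ne hr 0 0 (by simp [← h])
  have hpi : ∀ {E : Set ℕ}, ¬ Hard (SigmaN 2) Eᶜ → ¬ Hard (PiN 2) E := by
    intro E hE h
    refine hE fun B hB => hard_compl h B ?_
    show SigmaN 2 Bᶜᶜ
    rw [compl_compl]
    exact hB
  have e1 : (D fun X => mu.real X < r) = (D fun X => r < mu.real X)ᶜ := by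
    ext z
    show mu.real (df z) < r ↔ ¬ r < mu.real (df z)
    exact ⟨fun h => not_lt.2 h.le, fun h => lt_of_le_of_ne (not_lt.1 h) (hne z)⟩
  have e2 : (D fun X => r < mu.real X) = (D fun X => mu.real X < r)ᶜ := by
    rw [e1, compl_compl]
  have g1 : ¬ Hard (SigmaN 2) (D fun X => r < mu.real X) := not_hard_gt hne
  have g2 : ¬ Hard (SigmaN 2) (D fun X => mu.real X < r) := not_hard_lt hne
  have g3 : ¬ Hard (PiN 2) (D fun X => r < mu.real X) := hpi (by rw [← e1]; exact g2)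
  have g4 : ¬ Hard (PiN 2) (D fun X => mu.real X < r) := hpi (by rw [← e2]; exact g1)
  refine ⟨?_, ?_, ?_, e1, ?_, mred_gt h0, mred_lt hpos, turing_le hr h0, turing_ge_cut hr h1,
    turing_ge_halt hr h0 h1⟩
  · ext z
    exact ⟨fun h => hne z h, fun h => absurd h (Set.notMem_empty z)⟩
  · ext z
    show r ≤ mu.real (df z) ↔ r < mu.real (df z)
    exact ⟨fun h => lt_of_le_of_ne h (hne z).symm, fun h => h.le⟩
  · ext z
    show mu.real (df z) ≤ r ↔ mu.real (df z) < r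
    exact ⟨fun h => lt_of_le_of_ne h (hne z), fun h => h.le⟩
  · intro Γ hΓ
    rcases hΓ with h | h | h
    · exact ⟨fun hc => g1 fun A hA => hc.2 A (h A hA), fun hc => g2 fun A hA => hc.2 A (h A hA)⟩
    · exact ⟨fun hc => g3 fun A hA => hc.2 A (h A hA), fun hc => g4 fun A hA => hc.2 A (h A hA)⟩
    · constructor
      · intro hc
        obtain ⟨k, hk⟩ := h _ hc.1
        exact not_nce_gt hr h0 h1 k hk
      · intro hc
        obtain ⟨k, hk⟩ := h _ hc.1
        exact not_nce_lt hr h0 h1 k hk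

end Pool.Agent.Results.MP_02df5b_lc.Classification
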